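import Pool.Agent.H300R2.NB.BHorn

/-!
The Bateman-Horn formula for almost all `(a_i, b_i)` in the pencils `F_i(n) + a_i n^{j_i} + b_i`,
for arbitrary (fixed or varying) polynomials `F_i`.
-/

set_option autoImplicit false

namespace Pool.Agent.Results.MP_f1a94e_nt.EveryPencil

open Finset Polynomial
open Pool.Agent.H300R2.NB

/-- **Bateman-Horn in every pencil.** For all `r, D, C, U` there is `B` such that for every `E`
there is `B₁` such that for `x` large, `(log x)^B ≤ z ≤ (log x)^E`, `K ≥ (log x)^B`,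
`1 ≤ j_i ≤ D`, `A_i ≥ (log x)^B`, `A_i K^{j_i} (log x)^C ≥ x`, `X_i (log x)^C ≥ x`, ANY integers
`A0_i, B0_i` and ANY polynomials `F_i ∈ ℤ[X]` of degree `≤ D` the following holds for all
`a_i ∈ (A0_i, A0_i + A_i]`, `b_i ∈ (B0_i, B0_i + X_i]` with at most `∏ A_i X_i / (log x)^U`
exceptions: for ALL `y ≤ K` the number of `n ≤ y` for which all the numbers
`F_i(n) + a_i n^{j_i} + b_i` are primes `≤ x` is

* `𝔖_z ∑ ∏ 1/log(F_i(n) + a_i n^{j_i} + b_i) + O(K/(log x)^U)` if `K ≥ exp((log log x)^3)`;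
* `𝔖_z M(y)/(log x)^r + O(ε 𝔖_z K/(log x)^r + K/(log x)^U)`, `ε = 2^{-b} + log log x/log x`, if
  `K ≥ (log x)^{B₁ b}`, where `M(y)` counts the `n ≤ y` with
  `0 < F_i(n) + a_i n^{j_i} + b_i ≤ x` for all `i`;

and it is at least `M(y)/(log x)^{r+1}` if no prime `q ≤ z` divides all the products
`∏_i (F_i(n) + a_i n^{j_i} + b_i)` and `M(y) ≥ 4 B₁ ε K`. Here `𝔖_z` is the Bateman-Horn product
over the primes `q ≤ z`. -/
theorem result (r D C U : ℕ) : ∃ B : ℕ, ∀ E : ℕ, ∃ B1 x0 : ℕ, ∀ x : ℕ, x0 ≤ x → ∀ z K : ℕ,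
    Real.log x ^ B ≤ z → (z : ℝ) ≤ Real.log x ^ E → Real.log x ^ B ≤ K →
    ∀ j A X : Fin r → ℕ, (∀ i, 1 ≤ j i ∧ j i ≤ D ∧ Real.log x ^ B ≤ A i ∧
      (x : ℝ) ≤ A i * (K : ℝ) ^ (j i) * Real.log x ^ C ∧ (x : ℝ) ≤ X i * Real.log x ^ C) →
    ∀ (A0 B0 : Fin r → ℤ) (F : Fin r → ℤ[X]), (∀ i, (F i).natDegree ≤ D) →
    ∃ Ex : Finset (Fin r → ℤ × ℤ),
      (Ex.card : ℝ) ≤ (∏ i, ((A i : ℝ) * X i)) / Real.log x ^ U ∧
      ∀ p ∈ Bx A0 B0 A X, p ∉ Ex → ∀ y : ℕ, y ≤ K →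
      (Real.exp (Real.log (Real.log x) ^ 3) ≤ K →
        |cntP x (Icc 1 y) (vals (pen F j p)) -
          sing (pen F j p) z * logS x (Icc 1 y) (vals (pen F j p))| ≤ K / Real.log x ^ U) ∧
      (∀ b : ℕ, B1 ≤ b → Real.log x ^ (B1 * b) ≤ K →
        |cntP x (Icc 1 y) (vals (pen F j p)) -
          sing (pen F j p) z * (cntI x (Icc 1 y) (vals (pen F j p)) / Real.log x ^ r)| ≤
        B1 * ((1 / 2) ^ b + Real.log (Real.log x) / Real.log x) *
          (sing (pen F j p) z * (K / Real.log x ^ r)) + K / Real.log x ^ U ∧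
        ((∀ q : ℕ, q.Prime → q ≤ z → om (pen F j p) q < q) →
          4 * B1 * ((1 / 2) ^ b + Real.log (Real.log x) / Real.log x) * K ≤
            cntI x (Icc 1 y) (vals (pen F j p)) →
          cntI x (Icc 1 y) (vals (pen F j p)) / Real.log x ^ (r + 1) ≤
            cntP x (Icc 1 y) (vals (pen F j p)))) :=
  bh r D C U

end Pool.Agent.Results.MP_f1a94e_nt.EveryPencil
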