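import Pool.Agent.H717R2.MQ.Dim3
import Pool.Agent.H717R2.MQ.FinLev
import Pool.Agent.H717R2.MQ.PRM
import Pool.Agent.H717R2.MQ.COR

open MeasureTheory Filter Topology

namespace Pool.Agent.Results.MP_f1a94e_nt.MetricAsymptotic

open Pool.Agent.H717R2.MQ in
open Classical in
/-- **A metric Hardy-Littlewood asymptotic for floors of quadratic (and other power) sequences, with
exceptional set of Hausdorff dimension less than one.**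

(1) For every real `c ≥ 1` there is `κ ∈ (0, 1)` such that for every `β ∈ [0, 1]` and EVERY set `S` of positive
integers there is a set `E` of reals of Hausdorff dimension at most `1 - κ` with the following property: for
every `α > 0` outside `E`, the number of `n ≥ 1` with `m = ⌊α (n + β) ^ c⌋ ∈ S`, `1 ≤ m ≤ Z`, is
`∑_{m ∈ S, 1 ≤ m ≤ Z} (1 / (c m)) (m / α) ^ (1 / c) + O(Z ^ (1 / c - κ))`.

(2) For every real `c ≥ 1` (in particular `c = 2`), for all `α > 0` outside a set of Hausdorff dimension less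
than one (so for almost every `α > 0`) and every integer `h` (in particular `h = 1`), the number of `n ≤ N`
such that `⌊α n ^ c⌋ + h` is prime is asymptotic to `N / (c log N)`.

(3) Finite level, uniform in the set: for every real `c ≥ 1` there is `κ > 0` such that for every `Y > 0`, all
large `X`, EVERY set `P` of integers in `(X, 2 X]` and every `β ∈ [0, 1]`, the number of `n ≥ 1` with
`⌊α (n + β) ^ c⌋ ∈ P` differs from `∑_{m ∈ P} (1 / (c m)) (m / α) ^ (1 / c)` by at most `X ^ (1 / c - κ)` for all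
`α ∈ [Y, 2 Y]` outside a set of measure at most `X ^ (-κ)` (in particular for most slopes `α` in the window
`[1, 1 + X ^ (-κ / 2)]`). -/
theorem result :
    (∀ c : ℝ, 1 ≤ c → ∃ κ : ℝ, 0 < κ ∧ κ < 1 ∧ ∀ β : ℝ, 0 ≤ β → β ≤ 1 → ∀ S : Set ℕ,
      ∃ E : Set ℝ, dimH E ≤ ENNReal.ofReal (1 - κ) ∧ ∀ α : ℝ, 0 < α → α ∉ E → ∃ C : ℝ, ∀ Z : ℕ, 1 ≤ Z →
        |({n : ℕ | 1 ≤ n ∧ ⌊α * ((n : ℝ) + β) ^ c⌋₊ ∈ S ∧ 1 ≤ ⌊α * ((n : ℝ) + β) ^ c⌋₊ ∧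
            ⌊α * ((n : ℝ) + β) ^ c⌋₊ ≤ Z}.ncard : ℝ) -
          ∑ m ∈ (Finset.Icc 1 Z).filter (fun m => m ∈ S), (1 / (c * (m : ℝ))) * ((m : ℝ) / α) ^ (1 / c)| ≤
          C * (Z : ℝ) ^ (1 / c - κ)) ∧
    (∀ c : ℝ, 1 ≤ c → ∃ E : Set ℝ, dimH E < 1 ∧ ∀ α : ℝ, 0 < α → α ∉ E → ∀ h : ℤ,
      Tendsto (fun N : ℕ => ({n : ℕ | 1 ≤ n ∧ n ≤ N ∧
        ((⌊α * (n : ℝ) ^ c⌋₊ : ℤ) + h).toNat.Prime}.ncard : ℝ) * (c * Real.log N) / N) atTop (𝓝 1)) ∧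
    (∀ c : ℝ, 1 ≤ c → ∃ κ : ℝ, 0 < κ ∧ ∀ Y : ℝ, 0 < Y → ∃ X₀ : ℕ, ∀ X : ℕ, X₀ ≤ X →
      ∀ P : Finset ℕ, P ⊆ Finset.Ioc X (2 * X) → ∀ β : ℝ, 0 ≤ β → β ≤ 1 →
        volume {α : ℝ | α ∈ Set.Icc Y (2 * Y) ∧ (X : ℝ) ^ (1 / c - κ) <
          |({n : ℕ | 1 ≤ n ∧ ⌊α * ((n : ℝ) + β) ^ c⌋₊ ∈ P}.ncard : ℝ) -
            ∑ m ∈ P, (1 / (c * (m : ℝ))) * ((m : ℝ) / α) ^ (1 / c)|} ≤ ENNReal.ofReal ((X : ℝ) ^ (-κ))) := by
  refine ⟨?_, ?_, finite_level⟩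
  · intro c hc
    obtain ⟨κ, hκ, hκ1, h⟩ := dim_asymp c hc
    refine ⟨κ, hκ, hκ1, ?_⟩
    intro β hβ0 hβ1 S
    obtain ⟨E, hE, hEα⟩ := h β hβ0 hβ1 S
    refine ⟨E, hE, ?_⟩
    intro α hα0 hα
    obtain ⟨C, hC⟩ := hEα α hα0 hα
    refine ⟨C, fun Z hZ => ?_⟩
    have h1 := hC Z hZ
    have e1 : PS S 0 Z = (Finset.Icc 1 Z).filter (fun m => m ∈ S) := by
      unfold PS
      congr 1
    have e2 : cS c β α (↑(PS S 0 Z) : Set ℕ) =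
        ({n : ℕ | 1 ≤ n ∧ ⌊α * ((n : ℝ) + β) ^ c⌋₊ ∈ S ∧ 1 ≤ ⌊α * ((n : ℝ) + β) ^ c⌋₊ ∧
            ⌊α * ((n : ℝ) + β) ^ c⌋₊ ≤ Z}.ncard : ℝ) := by
      unfold cS
      congr 2
      ext n
      rw [e1]
      simp only [fl, Set.mem_setOf_eq, Finset.mem_coe, Finset.mem_filter, Finset.mem_Icc]
      tauto
    rw [e2, e1] at h1
    exact h1
  · intro c hc
    obtain ⟨κ, hκ, hκ1, h⟩ := dim_asymp c hc
    choose E hE hEα using fun h' : ℤ => h 0 le_rfl zero_le_one (Sh h')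
    refine ⟨⋃ h' : ℤ, E h', ?_, ?_⟩
    · rw [dimH_iUnion]
      refine (iSup_le hE).trans_lt ?_
      rw [← ENNReal.ofReal_one]
      exact (ENNReal.ofReal_lt_ofReal_iff zero_lt_one).mpr (by linarith)
    · intro α hα0 hα h'
      have hα' : α ∉ E h' := fun hh => hα (Set.mem_iUnion.mpr ⟨h', hh⟩)
      exact cor prm c α κ hc hα0 hκ h' (hEα h' α hα0 hα')

end Pool.Agent.Results.MP_f1a94e_nt.MetricAsymptotic
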