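import Pool.Agent.H492R2.Both

/-!
For every set `S` containing a prime not congruent to `3` modulo `4`, and for each parity `e`,
for ALL large `N` at least `N / (log N)^233` of the integers `n ≤ N` satisfy `n^2+1 = s^2 m` with
`m` squarefree, `s ≤ (log N)^238`, and the number of primes of `S` dividing `m` has parity `e`.
-/

theorem Pool.Agent.Results.MP_f1a94e_nt.PolylogParity.result
    (S : Set ℕ) (hS : ∃ p ∈ S, p.Prime ∧ p % 4 ≠ 3) (e : ℕ) (he : e < 2) :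
    ∃ N0 : ℕ, ∀ N : ℕ, N0 ≤ N → (N : ℝ) / Real.log N ^ 233 ≤
      (Set.ncard {n : ℕ | n ≤ N ∧ ∃ s m : ℕ, n ^ 2 + 1 = s ^ 2 * m ∧ Squarefree m ∧
        (s : ℝ) ≤ Real.log N ^ 238 ∧
        Set.ncard {p : ℕ | p.Prime ∧ p ∣ m ∧ p ∈ S} % 2 = e} : ℝ) :=
  Pool.Agent.H492R2.main_both S hS e he
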