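import Pool.Agent.H359R4.Main

/-!
Let `f` be a completely additive function from the positive integers to a finite abelian group
such that the values `f p` at the primes `p ≡ 1 (mod 4)` generate a subgroup with at least three
elements. Then at least three elements `h` of the group are values `f (n^2+1)`, each for at least
`X / (log X)^41` of the integers `n` in `(X, 2X]`, for arbitrarily large `X`, with `n^2+1 = s^2 m`,
`m` squarefree and `s ≤ (log X)^45`.

Examples: `f = Ω mod m`: the number of prime factors of `n^2+1` takes at least three residues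
modulo `m` for every `m ≥ 3`, in particular all residues modulo `3`.
-/

theorem Pool.Agent.Results.MP_f1a94e_nt.ThreeValues.result
    {H : Type} [AddCommGroup H] [Finite H] (f : ℕ → H)
    (hf : ∀ a b : ℕ, a ≠ 0 → b ≠ 0 → f (a * b) = f a + f b)
    (hG : 3 ≤ Nat.card (AddSubgroup.closure {x : H | ∃ p : ℕ, p.Prime ∧ p % 4 = 1 ∧ f p = x})) :
    ∃ S : Finset H, S.card = 3 ∧ ∀ h ∈ S, ∀ X0 : ℕ, ∃ X : ℕ, X0 ≤ X ∧
      (X : ℝ) / Real.log X ^ 41 ≤ (Set.ncard {n : ℕ | X < n ∧ n ≤ 2 * X ∧ f (n ^ 2 + 1) = h ∧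
        ∃ s m : ℕ, n ^ 2 + 1 = s ^ 2 * m ∧ Squarefree m ∧ (s : ℝ) ≤ Real.log X ^ 45} : ℝ) :=
  H359R4.three_values f hf hG
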